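import Pool.Agent.N245.BG.Stm

set_option autoImplicit false

/-! # No early return of the critical point (`S_NE`) -/

namespace Pool.Agent.N186.BG

open Complex Metric Set Filter Topology Pool.Agent.H712R2 Pool.Agent.H713R2 N62a1eb23
open Pool.Agent.Y736.HL Pool.Agent.N245.BG

theorem iter_zero (c : ℂ) (n : ℕ) : (fc 2 c)^[n] 0 = P 2 n c := by
  induction n with
  | zero => simp [P_zero]
  | succ n ih => rw [Function.iterate_succ_apply', ih, P_succ]; rfl

theorem fc_neg (c z : ℂ) : fc 2 c (-z) = fc 2 c z := by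
  simp [fc]

theorem iter_neg (c z : ℂ) (n : ℕ) (hn : 1 ≤ n) : (fc 2 c)^[n] (-z) = (fc 2 c)^[n] z := by
  obtain ⟨k, rfl⟩ : ∃ k, n = k + 1 := ⟨n - 1, by omega⟩
  rw [Function.iterate_succ_apply, Function.iterate_succ_apply, fc_neg]

theorem fc_surj (c : ℂ) : Function.Surjective (fc 2 c) := by
  intro w
  obtain ⟨z, hz⟩ := IsAlgClosed.exists_pow_nat_eq (w - c) (by norm_num : 0 < 2)
  exact ⟨z, by simp [fc, hz]⟩

theorem fc_diff (c : ℂ) : Differentiable ℂ (fc 2 c) := by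
  have : fc 2 c = fun z => z ^ 2 + c := by funext z; simp [fc]
  rw [this]
  fun_prop

theorem iter_diff (c : ℂ) (n : ℕ) : Differentiable ℂ ((fc 2 c)^[n]) := (fc_diff c).iterate n

theorem ne : Pool.Agent.N245.BG.S_NE := by
  intro c p m U hU h0U hcard hm hmp hP
  obtain ⟨δ, hδ, hδU⟩ := Metric.isOpen_iff.1 hU 0 h0U
  have hf0 : (fc 2 c)^[m] 0 = 0 := by rw [iter_zero, hP]
  have han : ∀ z, AnalyticAt ℂ ((fc 2 c)^[m]) z := fun z => (iter_diff c m).analyticAt z
  have hopen : 𝓝 ((fc 2 c)^[m] 0) ≤ map ((fc 2 c)^[m]) (𝓝 0) := by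
    rcases (han 0).eventually_constant_or_nhds_le_map_nhds with h | h
    · exfalso
      have h1 : (fc 2 c)^[m] = fun _ => (fc 2 c)^[m] 0 := by
        refine AnalyticOnNhd.eq_of_eventuallyEq (z₀ := 0) (fun z _ => han z)
          (fun z _ => analyticAt_const) h
      obtain ⟨z, hz⟩ := (fc_surj c).iterate m 1
      have h2 := congrFun h1 z
      rw [hz, hf0] at h2
      exact one_ne_zero h2
    · exact h
  rw [hf0] at hopen
  have himg : (fc 2 c)^[m] '' ball 0 δ ∈ 𝓝 (0 : ℂ) := hopen (image_mem_map (ball_mem_nhds 0 hδ))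
  obtain ⟨ε, hε, hεs⟩ := Metric.mem_nhds_iff.1 himg
  have hw : ((ε / 2 : ℝ) : ℂ) ∈ ball (0 : ℂ) ε := by
    rw [mem_ball_zero_iff, Complex.norm_real, Real.norm_eq_abs, abs_of_pos (by positivity)]
    linarith
  have hw' : -((ε / 2 : ℝ) : ℂ) ∈ ball (0 : ℂ) ε := by
    rw [mem_ball_zero_iff, norm_neg, Complex.norm_real, Real.norm_eq_abs,
      abs_of_pos (by positivity)]
    linarith
  have hwne : ((ε / 2 : ℝ) : ℂ) ≠ 0 := by
    rw [Ne, Complex.ofReal_eq_zero]
    positivity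
  obtain ⟨z1, hz1, h1⟩ := hεs hw
  obtain ⟨z2, hz2, h2⟩ := hεs hw'
  have hz1' : -z1 ∈ ball (0 : ℂ) δ := by
    rw [mem_ball_zero_iff] at hz1 ⊢
    rwa [norm_neg]
  have hn1 : z1 ≠ -z1 := by
    intro h
    have : z1 = 0 := self_eq_neg.1 h
    rw [this, hf0] at h1
    exact hwne h1.symm
  have hn2 : z1 ≠ z2 := by
    intro h
    rw [← h, h1] at h2
    exact hwne (self_eq_neg.1 h2)
  have hn3 : -z1 ≠ z2 := by
    intro h
    rw [← h, iter_neg c z1 m hm, h1] at h2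
    exact hwne (self_eq_neg.1 h2)
  -- the common value
  have hval : ∀ z, (fc 2 c)^[p] z = (fc 2 c)^[p - m] ((fc 2 c)^[m] z) := by
    intro z
    rw [← Function.iterate_add_apply, Nat.sub_add_cancel hmp.le]
  have e1 : (fc 2 c)^[p] (-z1) = (fc 2 c)^[p] z1 := iter_neg c z1 p (by omega)
  have e2 : (fc 2 c)^[p] z2 = (fc 2 c)^[p] z1 := by
    rw [hval, hval, h1, h2, iter_neg c _ (p - m) (by omega)]
  have hle := hcard ((fc 2 c)^[p] z1) (mem_image_of_mem _ (hδU hz1))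
  have hsub : (({z1, -z1, z2} : Finset ℂ) : Set ℂ) ⊆
      {z | z ∈ U ∧ (fc 2 c)^[p] z = (fc 2 c)^[p] z1} := by
    intro z hz
    simp only [Finset.coe_insert, Finset.coe_singleton, mem_insert_iff, mem_singleton_iff] at hz
    rcases hz with rfl | rfl | rfl
    · exact ⟨hδU hz1, rfl⟩
    · exact ⟨hδU hz1', e1⟩
    · exact ⟨hδU hz2, e2⟩
  have h3 := (Set.encard_le_encard hsub).trans hle
  rw [Set.encard_coe_eq_coe_finsetCard, Finset.card_eq_three.2 ⟨z1, -z1, z2, hn1, hn2, hn3, rfl⟩] at h3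
  exact absurd h3 (by decide)

end Pool.Agent.N186.BG
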